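import Mathlib

/-!
# The convex relaxation for jerk-constrained speed planning is not always exact

Indices run over `1, …, n`.  A vector of `ℝ^n` is written as a function `ℕ → ℝ` of which only the
coordinates `1, …, n` are used.
-/

open scoped ENNReal

namespace Pool.Agent.Results.MP_6d6828_an.NotExact

/-- An instance of the speed planning problem: `n ≥ 3`, step `h`, constants `A`, `J`, `ρ > 0` and
upper bounds `wmax i > 0` for `2 ≤ i ≤ n - 1`. -/
structure Instance where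
  n : ℕ
  h : ℝ
  A : ℝ
  J : ℝ
  ρ : ℝ
  wmax : ℕ → ℝ
  three_le : 3 ≤ n
  h_pos : 0 < h
  A_pos : 0 < A
  J_pos : 0 < J
  ρ_pos : 0 < ρ
  wmax_pos : ∀ i ∈ Finset.Icc 2 (n - 1), 0 < wmax i

namespace Instance

variable (I : Instance)

/-- `Δw_i = (w_{i-1} - (2 + ρ) w_i + w_{i+1}) / (h J)`. -/
noncomputable def Delta (w : ℕ → ℝ) (i : ℕ) : ℝ :=
  (w (i - 1) - (2 + I.ρ) * w i + w (i + 1)) / (I.h * I.J)

/-- The convex set `C`. -/
def C : Set (ℕ → ℝ) :=
  {w | w 1 = 0 ∧ w I.n = 0 ∧ (∀ i ∈ Finset.Icc 2 (I.n - 1), 0 ≤ w i ∧ w i ≤ I.wmax i) ∧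
    ∀ i ∈ Finset.Icc 1 (I.n - 1), |w (i + 1) - w i| ≤ I.h * I.A}

/-- `h / √x` as an extended nonnegative number, equal to `∞` at `x = 0`. -/
noncomputable def cost (x : ℝ) : ℝ≥0∞ :=
  ENNReal.ofReal I.h / ENNReal.ofReal (√x)

/-- The feasible vectors of (P): `w ∈ C` and `|Δw_i| ≤ h / √w_i` for `2 ≤ i ≤ n - 1`. -/
def FeasP : Set (ℕ → ℝ) :=
  {w | w ∈ I.C ∧ ∀ i ∈ Finset.Icc 2 (I.n - 1), ENNReal.ofReal |I.Delta w i| ≤ I.cost (w i)}

/-- The objective of (P): `∑ h / √w_i`. -/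
noncomputable def objP (w : ℕ → ℝ) : ℝ≥0∞ :=
  ∑ i ∈ Finset.Icc 2 (I.n - 1), I.cost (w i)

/-- The feasible pairs of (R): `w ∈ C`, `t_i ≥ h / √w_i` and `t_i ≥ |Δw_i|`
for `2 ≤ i ≤ n - 1`. -/
def FeasR : Set ((ℕ → ℝ) × (ℕ → ℝ)) :=
  {p | p.1 ∈ I.C ∧ ∀ i ∈ Finset.Icc 2 (I.n - 1),
    I.cost (p.1 i) ≤ ENNReal.ofReal (p.2 i) ∧ |I.Delta p.1 i| ≤ p.2 i}

/-- The objective of (R): `∑ t_i`. -/
noncomputable def objR (t : ℕ → ℝ) : ℝ :=
  ∑ i ∈ Finset.Icc 2 (I.n - 1), t i

/-- The optimal value of (P). -/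
noncomputable def valP : ℝ≥0∞ := ⨅ w ∈ I.FeasP, I.objP w

/-- The optimal value of (R). -/
noncomputable def valR : ℝ≥0∞ := ⨅ p ∈ I.FeasR, ENNReal.ofReal (I.objR p.2)

/-- `(w, t)` is a minimizer of (R). -/
def IsMinR (p : (ℕ → ℝ) × (ℕ → ℝ)) : Prop :=
  p ∈ I.FeasR ∧ ∀ q ∈ I.FeasR, I.objR p.2 ≤ I.objR q.2

/-- (R) is exact: the optimal values of (P) and (R) are equal and, for each minimizer `(w, t)` of
(R), the vector `w` is feasible and optimal for (P). -/
def Exact : Prop :=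
  I.valP = I.valR ∧
    ∀ p, I.IsMinR p → p.1 ∈ I.FeasP ∧ ∀ w ∈ I.FeasP, I.objP p.1 ≤ I.objP w

end Instance

/-! ## Elementary inequalities -/

/-- Tangent line inequality for `1/√x`. -/
lemma inv_sqrt_tangent {x y c : ℝ} (hy : 0 < y) (hyx : y ≤ x) (hc : 0 ≤ c)
    (hcx : 4 * c ^ 2 * x ^ 3 ≤ 1) : 1 / √x + c * (x - y) ≤ 1 / √y := by
  have hx : 0 < x := lt_of_lt_of_le hy hyx
  set p := √y with hp
  set q := √x with hq
  have hp0 : 0 < p := Real.sqrt_pos.2 hy
  have hq0 : 0 < q := Real.sqrt_pos.2 hx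
  have hpq : p ≤ q := Real.sqrt_le_sqrt hyx
  have hpy : p ^ 2 = y := Real.sq_sqrt hy.le
  have hqx : q ^ 2 = x := Real.sq_sqrt hx.le
  have hcq : 2 * c * q ^ 3 ≤ 1 := by
    have h1 : (2 * c * q ^ 3) ^ 2 ≤ 1 := by
      have : (2 * c * q ^ 3) ^ 2 = 4 * c ^ 2 * (q ^ 2) ^ 3 := by ring
      rw [this, hqx]; exact hcx
    nlinarith [pow_pos hq0 3, mul_nonneg hc (pow_pos hq0 3).le]
  have hkey : c * (q + p) * (p * q) ≤ 1 := by
    have h2 : c * (q + p) * (p * q) ≤ 2 * c * q ^ 3 := by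
      have h3 : (q + p) * (p * q) ≤ 2 * q ^ 3 := by
        have : (q + p) * (p * q) ≤ (q + q) * (q * q) := by
          apply mul_le_mul
          · linarith
          · exact mul_le_mul_of_nonneg_right hpq hq0.le
          · positivity
          · positivity
        nlinarith [this]
      nlinarith [mul_le_mul_of_nonneg_left h3 hc]
    linarith
  have h4 : 1 / p - 1 / q = (q - p) / (p * q) := by
    field_simp
  have h5 : x - y = (q - p) * (q + p) := by rw [← hpy, ← hqx]; ring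
  have h6 : c * (x - y) ≤ (q - p) / (p * q) := by
    rw [h5, le_div_iff₀ (by positivity)]
    have h7 : 0 ≤ q - p := by linarith
    nlinarith [mul_le_mul_of_nonneg_left hkey h7]
  linarith

/-! ## The normalized profile -/

/-- Twice the normalized upper bound `min (1 + |j - 25|, j - 1, n - j, 23/2)`, as an integer. -/
def U (n j : ℕ) : ℤ :=
  min (min (2 + 2 * max ((j : ℤ) - 25) (25 - (j : ℤ))) (2 * (j : ℤ) - 2))
    (min (2 * (n : ℤ) - 2 * (j : ℤ)) 23)

lemma U_one (n : ℕ) (hn : 49 ≤ n) : U n 1 = 0 := by unfold U; omega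

lemma U_n (n : ℕ) (hn : 49 ≤ n) : U n n = 0 := by unfold U; omega

lemma U_lip (n j : ℕ) : U n (j + 1) - U n j ≤ 2 ∧ -2 ≤ U n (j + 1) - U n j := by
  unfold U; push_cast; omega

lemma U_sd (n j : ℕ) (hn : 49 ≤ n) (h2 : 2 ≤ j) (h25 : j ≠ 25) :
    U n (j - 1) - 2 * U n j + U n (j + 1) ≤ 0 ∧
      -1 ≤ U n (j - 1) - 2 * U n j + U n (j + 1) := by
  unfold U
  push_cast
  omega

lemma U_pos (n j : ℕ) (hn : 49 ≤ n) (h2 : 2 ≤ j) (hj : j ≤ n - 1) : 2 ≤ U n j := by
  unfold U; omega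

lemma U_le (n j : ℕ) : U n j ≤ 23 := by
  unfold U; omega

lemma U_right (n k : ℕ) (hn : 49 ≤ n) (hk : k ≤ 10) : U n (25 + k) = 2 + 2 * k := by
  unfold U; push_cast; omega

lemma U_left (n k : ℕ) (hn : 49 ≤ n) (hk : k ≤ 10) : U n (25 - k) = 2 + 2 * k := by
  unfold U; omega

/-- The normalized upper bound. -/
noncomputable def u (n j : ℕ) : ℝ := (U n j : ℝ) / 2

lemma u_one (n : ℕ) (hn : 49 ≤ n) : u n 1 = 0 := by simp [u, U_one n hn]

lemma u_n (n : ℕ) (hn : 49 ≤ n) : u n n = 0 := by simp [u, U_n n hn]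

lemma u_lip (n j : ℕ) : |u n (j + 1) - u n j| ≤ 1 := by
  obtain ⟨h1, h2⟩ := U_lip n j
  have h1' : ((U n (j + 1) : ℤ) : ℝ) - (U n j : ℝ) ≤ 2 := by exact_mod_cast h1
  have h2' : (-2 : ℝ) ≤ ((U n (j + 1) : ℤ) : ℝ) - (U n j : ℝ) := by exact_mod_cast h2
  rw [abs_le]; unfold u; constructor <;> linarith

lemma u_sd (n j : ℕ) (hn : 49 ≤ n) (h2 : 2 ≤ j) (h25 : j ≠ 25) :
    u n (j - 1) - 2 * u n j + u n (j + 1) ≤ 0 ∧
      -(1 / 2) ≤ u n (j - 1) - 2 * u n j + u n (j + 1) := by
  obtain ⟨h1, h2⟩ := U_sd n j hn h2 h25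
  have h1' : (U n (j - 1) : ℝ) - 2 * (U n j : ℝ) + (U n (j + 1) : ℝ) ≤ 0 := by exact_mod_cast h1
  have h2' : (-1 : ℝ) ≤ (U n (j - 1) : ℝ) - 2 * (U n j : ℝ) + (U n (j + 1) : ℝ) := by
    exact_mod_cast h2
  unfold u; constructor <;> linarith

lemma one_le_u (n j : ℕ) (hn : 49 ≤ n) (h2 : 2 ≤ j) (hj : j ≤ n - 1) : 1 ≤ u n j := by
  have h1 : (2 : ℝ) ≤ (U n j : ℝ) := by exact_mod_cast U_pos n j hn h2 hj
  unfold u; linarith

lemma u_le (n j : ℕ) : u n j ≤ 23 / 2 := by
  have h1 : (U n j : ℝ) ≤ 23 := by exact_mod_cast U_le n j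
  unfold u; linarith

lemma u_right (n k : ℕ) (hn : 49 ≤ n) (hk : k ≤ 10) : u n (25 + k) = 1 + k := by
  have h1 : (U n (25 + k) : ℝ) = 2 + 2 * k := by exact_mod_cast U_right n k hn hk
  unfold u; rw [h1]; ring

lemma u_left (n k : ℕ) (hn : 49 ≤ n) (hk : k ≤ 10) : u n (25 - k) = 1 + k := by
  have h1 : (U n (25 - k) : ℝ) = 2 + 2 * k := by exact_mod_cast U_left n k hn hk
  unfold u; rw [h1]; ring

/-- Rational lower bounds for `(1 + k)^(-3/2) / 2`. -/
noncomputable def cc : ℕ → ℝ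
  | 1 => 1767 / 10000
  | 2 => 962 / 10000
  | 3 => 625 / 10000
  | 4 => 447 / 10000
  | 5 => 340 / 10000
  | 6 => 269 / 10000
  | 7 => 220 / 10000
  | 8 => 185 / 10000
  | 9 => 158 / 10000
  | 10 => 137 / 10000
  | _ => 0

lemma cc_nonneg (k : ℕ) : 0 ≤ cc k := by
  unfold cc
  split <;> norm_num

lemma cc_zero_of_gt {k : ℕ} (hk : 10 < k) : cc k = 0 := by
  unfold cc
  split <;> first | omega | rfl

lemma cc_zero : cc 0 = 0 := rfl

lemma cc_bound {k : ℕ} (hk : k ≤ 10) : 4 * (cc k) ^ 2 * (1 + (k : ℝ)) ^ 3 ≤ 1 := by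
  interval_cases k <;> norm_num [cc]

/-- The jerk constraint at the valley forces a total deficit at its two neighbours. -/
lemma valley {ρ x y z : ℝ} (hρ : 0 < ρ) (hρ' : ρ ≤ 1 / 1000) (hx : 0 < x) (hx1 : x ≤ 1)
    (hy : y ≤ x + 1) (hz : z ≤ x + 1)
    (hj : y - (2 + ρ) * x + z ≤ (99 / 50) / √x) :
    2 - ρ - 99 / 50 ≤ (2 - y) + (2 - z) := by
  set s := √x with hs
  have hs0 : 0 < s := Real.sqrt_pos.2 hx
  have hsx : s ^ 2 = x := Real.sq_sqrt hx.le
  have hs1 : s ≤ 1 := by nlinarith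
  by_cases h9 : 9 / 10 ≤ s
  · have h1 : (99 / 50) / s - 99 / 50 ≤ (2 + ρ) * (1 - x) := by
      have h2 : (99 / 50) / s - 99 / 50 = (99 / 50) * (1 - s) / s := by field_simp
      rw [h2, div_le_iff₀ hs0, ← hsx]
      have h3 : (2 + ρ) * (1 - s ^ 2) * s = (1 - s) * ((2 + ρ) * (1 + s) * s) := by ring
      rw [h3]
      have h4 : 99 / 50 ≤ (2 + ρ) * (1 + s) * s := by nlinarith
      have h5 : 0 ≤ 1 - s := by linarith
      nlinarith [mul_le_mul_of_nonneg_left h4 h5]
    linarith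
  · push Not at h9
    have h1 : x ≤ 81 / 100 := by nlinarith
    linarith

/-- Coefficient of the right deficit. -/
noncomputable def cR (i : ℕ) : ℝ := cc (i - 25)

/-- Coefficient of the left deficit. -/
noncomputable def cL (i : ℕ) : ℝ := cc (25 - i)

lemma sum_cR (n : ℕ) (hn : 49 ≤ n) :
    5110 / 10000 ≤ ∑ i ∈ Finset.Icc 2 (n - 1), cR i := by
  have h1 : ∑ i ∈ Finset.Icc 26 35, cR i ≤ ∑ i ∈ Finset.Icc 2 (n - 1), cR i := by
    apply Finset.sum_le_sum_of_subset_of_nonneg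
    · intro i hi
      rw [Finset.mem_Icc] at hi ⊢
      omega
    · intro i _ _
      exact cc_nonneg _
  refine le_trans ?_ h1
  have h2 : Finset.Icc 26 35 = ({26, 27, 28, 29, 30, 31, 32, 33, 34, 35} : Finset ℕ) := by decide
  rw [h2]
  simp [cR, cc]
  norm_num

lemma sum_cL (n : ℕ) (hn : 49 ≤ n) :
    5110 / 10000 ≤ ∑ i ∈ Finset.Icc 2 (n - 1), cL i := by
  have h1 : ∑ i ∈ Finset.Icc 15 24, cL i ≤ ∑ i ∈ Finset.Icc 2 (n - 1), cL i := by
    apply Finset.sum_le_sum_of_subset_of_nonneg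
    · intro i hi
      rw [Finset.mem_Icc] at hi ⊢
      omega
    · intro i _ _
      exact cc_nonneg _
  refine le_trans ?_ h1
  have h2 : Finset.Icc 15 24 = ({15, 16, 17, 18, 19, 20, 21, 22, 23, 24} : Finset ℕ) := by decide
  rw [h2]
  simp [cL, cc]
  norm_num

/-- The lower bound for (P), in normalized form. -/
lemma lower (n : ℕ) (hn : 49 ≤ n) {ρ : ℝ} (hρ : 0 < ρ) (hρ' : ρ ≤ 1 / 1000) (v : ℕ → ℝ)
    (hv0 : ∀ i ∈ Finset.Icc 2 (n - 1), 0 < v i)
    (hvu : ∀ i ∈ Finset.Icc 2 (n - 1), v i ≤ u n i)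
    (hlip : ∀ i ∈ Finset.Icc 1 (n - 1), |v (i + 1) - v i| ≤ 1)
    (hjerk : v 24 - (2 + ρ) * v 25 + v 26 ≤ (99 / 50) / √(v 25)) :
    ∑ i ∈ Finset.Icc 2 (n - 1), 1 / √(u n i) + (5110 / 10000) * (2 - ρ - 99 / 50) ≤
      ∑ i ∈ Finset.Icc 2 (n - 1), 1 / √(v i) := by
  have h24 : v 24 ≤ u n (25 - 1) := hvu 24 (by rw [Finset.mem_Icc]; omega)
  have h25 : v 25 ≤ u n (25 - 0) := hvu 25 (by rw [Finset.mem_Icc]; omega)
  have h26 : v 26 ≤ u n (25 + 1) := hvu 26 (by rw [Finset.mem_Icc]; omega)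
  rw [u_left n 1 hn (by norm_num)] at h24
  rw [u_left n 0 hn (by norm_num)] at h25
  rw [u_right n 1 hn (by norm_num)] at h26
  push_cast at h24 h25 h26
  have hx0 : 0 < v 25 := hv0 25 (by rw [Finset.mem_Icc]; omega)
  have hl24 : |v (24 + 1) - v 24| ≤ 1 := hlip 24 (by rw [Finset.mem_Icc]; omega)
  have hl25 : |v (25 + 1) - v 25| ≤ 1 := hlip 25 (by rw [Finset.mem_Icc]; omega)
  rw [abs_le] at hl24 hl25
  have hD := valley (ρ := ρ) (x := v 25) (y := v 24) (z := v 26) hρ hρ' hx0 (by linarith)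
    (by linarith [hl24.1]) (by linarith [hl25.2]) hjerk
  set dL := 2 - v 24 with hdL
  set dR := 2 - v 26 with hdR
  have hdL0 : 0 ≤ dL := by linarith
  have hdR0 : 0 ≤ dR := by linarith
  -- the right slope
  have hright : ∀ k : ℕ, k ≤ 9 → v (26 + k) ≤ (2 + k) - dR := by
    intro k
    induction k with
    | zero => intro _; simp [hdR]
    | succ k ih =>
      intro hk
      have h1 := ih (by omega)
      have h2 : |v ((26 + k) + 1) - v (26 + k)| ≤ 1 := hlip (26 + k) (by rw [Finset.mem_Icc]; omega)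
      rw [abs_le] at h2
      have h3 : v (26 + (k + 1)) = v ((26 + k) + 1) := by ring_nf
      rw [h3]
      push_cast
      linarith [h2.2]
  have hleft : ∀ k : ℕ, k ≤ 9 → v (24 - k) ≤ (2 + k) - dL := by
    intro k
    induction k with
    | zero => intro _; simp [hdL]
    | succ k ih =>
      intro hk
      have h1 := ih (by omega)
      have h2 : |v ((24 - (k + 1)) + 1) - v (24 - (k + 1))| ≤ 1 :=
        hlip (24 - (k + 1)) (by rw [Finset.mem_Icc]; omega)
      have h3 : (24 - (k + 1)) + 1 = 24 - k := by omega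
      rw [h3, abs_le] at h2
      have h4 : ((k + 1 : ℕ) : ℝ) = k + 1 := by push_cast; ring
      rw [h4]
      linarith [h2.1]
  have hterm : ∀ i ∈ Finset.Icc 2 (n - 1), 1 / √(u n i) + (cL i * dL + cR i * dR) ≤
      1 / √(v i) := by
    intro i hi
    have hv := hv0 i hi
    have hu := hvu i hi
    rw [Finset.mem_Icc] at hi
    have hbase : 1 / √(u n i) ≤ 1 / √(v i) :=
      one_div_le_one_div_of_le (Real.sqrt_pos.2 hv) (Real.sqrt_le_sqrt hu)
    by_cases hiR : 26 ≤ i ∧ i ≤ 35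
    · obtain ⟨k, rfl⟩ : ∃ k, i = 26 + k := ⟨i - 26, by omega⟩
      have hk : k ≤ 9 := by omega
      have hcL : cL (26 + k) = 0 := by
        unfold cL
        rw [show 25 - (26 + k) = 0 by omega]; rfl
      have hcR : cR (26 + k) = cc (k + 1) := by
        unfold cR
        rw [show (26 + k) - 25 = k + 1 by omega]
      have hueq : u n (26 + k) = 2 + k := by
        have h := u_right n (k + 1) hn (by omega)
        rw [show 25 + (k + 1) = 26 + k by omega] at h
        rw [h]; push_cast; ring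
      have hbd := cc_bound (k := k + 1) (by omega)
      have hbd' : 4 * (cc (k + 1)) ^ 2 * (2 + (k : ℝ)) ^ 3 ≤ 1 := by
        have : (1 + ((k + 1 : ℕ) : ℝ)) = 2 + k := by push_cast; ring
        rw [this] at hbd; exact hbd
      have ht := inv_sqrt_tangent (x := 2 + (k : ℝ)) (y := v (26 + k)) (c := cc (k + 1)) hv
        (by rw [← hueq]; exact hu) (cc_nonneg _) hbd'
      have hr := hright k hk
      rw [hcL, hcR, hueq]
      have : cc (k + 1) * dR ≤ cc (k + 1) * (2 + (k : ℝ) - v (26 + k)) :=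
        mul_le_mul_of_nonneg_left (by linarith) (cc_nonneg _)
      linarith
    · by_cases hiL : 15 ≤ i ∧ i ≤ 24
      · obtain ⟨k, hk, rfl⟩ : ∃ k, k ≤ 9 ∧ i = 24 - k := ⟨24 - i, by omega, by omega⟩
        have hcR : cR (24 - k) = 0 := by
          unfold cR
          rw [show (24 - k) - 25 = 0 by omega]; rfl
        have hcL : cL (24 - k) = cc (k + 1) := by
          unfold cL
          rw [show 25 - (24 - k) = k + 1 by omega]
        have hueq : u n (24 - k) = 2 + k := by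
          have h := u_left n (k + 1) hn (by omega)
          rw [show 25 - (k + 1) = 24 - k by omega] at h
          rw [h]; push_cast; ring
        have hbd := cc_bound (k := k + 1) (by omega)
        have hbd' : 4 * (cc (k + 1)) ^ 2 * (2 + (k : ℝ)) ^ 3 ≤ 1 := by
          have : (1 + ((k + 1 : ℕ) : ℝ)) = 2 + k := by push_cast; ring
          rw [this] at hbd; exact hbd
        have ht := inv_sqrt_tangent (x := 2 + (k : ℝ)) (y := v (24 - k)) (c := cc (k + 1)) hv
          (by rw [← hueq]; exact hu) (cc_nonneg _) hbd'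
        have hr := hleft k hk
        rw [hcL, hcR, hueq]
        have : cc (k + 1) * dL ≤ cc (k + 1) * (2 + (k : ℝ) - v (24 - k)) :=
          mul_le_mul_of_nonneg_left (by linarith) (cc_nonneg _)
        linarith
      · have hcR : cR i = 0 := by
          unfold cR
          rcases Nat.lt_or_ge 35 i with h | h
          · exact cc_zero_of_gt (by omega)
          · rw [show i - 25 = 0 by omega]; rfl
        have hcL : cL i = 0 := by
          unfold cL
          rcases Nat.lt_or_ge i 15 with h | h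
          · exact cc_zero_of_gt (by omega)
          · rw [show 25 - i = 0 by omega]; rfl
        rw [hcR, hcL]
        linarith
  have hsum := Finset.sum_le_sum hterm
  rw [Finset.sum_add_distrib, Finset.sum_add_distrib, ← Finset.sum_mul, ← Finset.sum_mul] at hsum
  have hL := mul_le_mul_of_nonneg_right (sum_cL n hn) hdL0
  have hR := mul_le_mul_of_nonneg_right (sum_cR n hn) hdR0
  have hfin : (5110 / 10000 : ℝ) * (2 - ρ - 99 / 50) ≤ 5110 / 10000 * dL + 5110 / 10000 * dR := by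
    have : (5110 / 10000 : ℝ) * (2 - ρ - 99 / 50) ≤ 5110 / 10000 * (dL + dR) :=
      mul_le_mul_of_nonneg_left hD (by norm_num)
    linarith
  linarith

/-! ## The instance -/

/-- The instance with `hA = a`, `J = (99/50) a √a / h²` and `wmax = a u`. -/
noncomputable def inst (n : ℕ) (hn : 49 ≤ n) (h A ρ : ℝ) (hh : 0 < h) (hA : 0 < A)
    (hρ : 0 < ρ) : Instance where
  n := n
  h := h
  A := A
  J := (99 / 50) * ((h * A) * √(h * A)) / h ^ 2
  ρ := ρ
  wmax := fun j => (h * A) * u n j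
  three_le := by omega
  h_pos := hh
  A_pos := hA
  J_pos := by positivity
  ρ_pos := hρ
  wmax_pos := by
    intro i hi
    rw [Finset.mem_Icc] at hi
    have := one_le_u n i hn hi.1 hi.2
    positivity

section

variable {n : ℕ} (hn : 49 ≤ n) {h A ρ : ℝ} (hh : 0 < h) (hA : 0 < A) (hρ : 0 < ρ)

/-- `Δ` of a scaled vector. -/
lemma Delta_scale (v : ℕ → ℝ) (i : ℕ) :
    (inst n hn h A ρ hh hA hρ).Delta (fun j => (h * A) * v j) i =
      (h / √(h * A)) * ((v (i - 1) - (2 + ρ) * v i + v (i + 1)) / (99 / 50)) := by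
  have ha : 0 < h * A := by positivity
  have hs : 0 < √(h * A) := Real.sqrt_pos.2 ha
  unfold Instance.Delta inst
  simp only
  field_simp

/-- `h/√w` of a scaled vector. -/
lemma cost_scale {x : ℝ} (hx : 0 < x) :
    (inst n hn h A ρ hh hA hρ).cost ((h * A) * x) =
      ENNReal.ofReal ((h / √(h * A)) * (1 / √x)) := by
  have ha : 0 < h * A := by positivity
  have hs : 0 < √(h * A) := Real.sqrt_pos.2 ha
  have hx' : 0 < √x := Real.sqrt_pos.2 hx
  unfold Instance.cost inst
  simp only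
  rw [Real.sqrt_mul ha.le, ← ENNReal.ofReal_div_of_pos (by positivity)]
  congr 1
  field_simp

lemma cost_zero : (inst n hn h A ρ hh hA hρ).cost 0 = ⊤ := by
  unfold Instance.cost inst
  simp only [Real.sqrt_zero, ENNReal.ofReal_zero]
  rw [ENNReal.div_zero]
  simpa using hh

/-- Upper bound for the value of (R). -/
lemma valR_le (hρ' : ρ ≤ 1 / 1000) :
    (inst n hn h A ρ hh hA hρ).valR ≤
      ENNReal.ofReal ((h / √(h * A)) * (∑ i ∈ Finset.Icc 2 (n - 1), 1 / √(u n i) +
        (2 - ρ - 99 / 50) / (99 / 50))) := by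
  have ha : 0 < h * A := by positivity
  have hs : 0 < √(h * A) := Real.sqrt_pos.2 ha
  set σ := h / √(h * A) with hσ
  have hσ0 : 0 < σ := by positivity
  let w : ℕ → ℝ := fun j => (h * A) * u n j
  let t : ℕ → ℝ := fun j => if j = 25 then σ * ((2 - ρ) / (99 / 50)) else σ * (1 / √(u n j))
  have hmem : (w, t) ∈ (inst n hn h A ρ hh hA hρ).FeasR := by
    refine ⟨⟨?_, ?_, ?_, ?_⟩, ?_⟩
    · change (h * A) * u n 1 = 0
      rw [u_one n hn, mul_zero]
    · change (h * A) * u n n = 0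
      rw [u_n n hn, mul_zero]
    · intro i hi
      change i ∈ Finset.Icc 2 (n - 1) at hi
      rw [Finset.mem_Icc] at hi
      have h1 := one_le_u n i hn hi.1 hi.2
      constructor
      · change 0 ≤ (h * A) * u n i
        positivity
      · exact le_refl _
    · intro i hi
      change |(h * A) * u n (i + 1) - (h * A) * u n i| ≤ h * A
      rw [← mul_sub, abs_mul, abs_of_pos ha]
      calc (h * A) * |u n (i + 1) - u n i| ≤ (h * A) * 1 :=
            mul_le_mul_of_nonneg_left (u_lip n i) ha.le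
        _ = h * A := mul_one _
    · intro i hi
      change i ∈ Finset.Icc 2 (n - 1) at hi
      rw [Finset.mem_Icc] at hi
      have h1 := one_le_u n i hn hi.1 hi.2
      have hu0 : 0 < u n i := by linarith
      have hsu : 0 < √(u n i) := Real.sqrt_pos.2 hu0
      change (inst n hn h A ρ hh hA hρ).cost ((h * A) * u n i) ≤ ENNReal.ofReal (t i) ∧
        |(inst n hn h A ρ hh hA hρ).Delta (fun j => (h * A) * u n j) i| ≤ t i
      rw [cost_scale hn hh hA hρ hu0, Delta_scale, ← hσ, abs_mul, abs_of_pos hσ0]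
      by_cases h25 : i = 25
      · subst h25
        have e24 : u n (25 - 1) = 2 := by
          rw [u_left n 1 hn (by norm_num)]; norm_num
        have e25 : u n 25 = 1 := by
          have := u_left n 0 hn (by norm_num)
          simpa using this
        have e26 : u n (25 + 1) = 2 := by
          rw [u_right n 1 hn (by norm_num)]; norm_num
        have ht : t 25 = σ * ((2 - ρ) / (99 / 50)) := by simp [t]
        rw [ht, e24, e25, e26]
        constructor
        · apply ENNReal.ofReal_le_ofReal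
          apply mul_le_mul_of_nonneg_left _ hσ0.le
          rw [Real.sqrt_one, le_div_iff₀ (by norm_num)]
          linarith
        · apply mul_le_mul_of_nonneg_left _ hσ0.le
          rw [show (2 : ℝ) - (2 + ρ) * 1 + 2 = 2 - ρ by ring]
          rw [abs_of_nonneg (by apply div_nonneg <;> linarith)]
      · have ht : t i = σ * (1 / √(u n i)) := by simp [t, h25]
        rw [ht]
        refine ⟨le_refl _, ?_⟩
        apply mul_le_mul_of_nonneg_left _ hσ0.le
        obtain ⟨h3, h4⟩ := u_sd n i hn hi.1 h25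
        have h5 := u_le n i
        have h6 : |u n (i - 1) - (2 + ρ) * u n i + u n (i + 1)| ≤ 52 / 100 := by
          rw [abs_le]
          constructor <;> nlinarith
        have h7 : √(u n i) ≤ 7 / 2 := by
          rw [show (7 / 2 : ℝ) = √((7 / 2) ^ 2) by rw [Real.sqrt_sq (by norm_num)]]
          apply Real.sqrt_le_sqrt
          linarith
        rw [abs_div, abs_of_pos (show (0 : ℝ) < 99 / 50 by norm_num),
          div_le_div_iff₀ (by norm_num) hsu]
        nlinarith [abs_nonneg (u n (i - 1) - (2 + ρ) * u n i + u n (i + 1))]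
  refine le_trans (iInf₂_le (w, t) hmem) ?_
  apply ENNReal.ofReal_le_ofReal
  change ∑ i ∈ Finset.Icc 2 (n - 1), t i ≤ _
  have h25 : (25 : ℕ) ∈ Finset.Icc 2 (n - 1) := by rw [Finset.mem_Icc]; omega
  have e25 : u n 25 = 1 := by
    have := u_left n 0 hn (by norm_num)
    simpa using this
  have key : ∑ i ∈ Finset.Icc 2 (n - 1), t i =
      ∑ i ∈ Finset.Icc 2 (n - 1), (σ * (1 / √(u n i)) +
        if i = 25 then σ * ((2 - ρ - 99 / 50) / (99 / 50)) else 0) := by
    apply Finset.sum_congr rfl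
    intro i _
    by_cases h : i = 25
    · subst h
      simp only [t, if_true, e25, Real.sqrt_one]
      field_simp
      ring
    · simp [t, h]
  rw [key, Finset.sum_add_distrib, Finset.sum_ite_eq' , if_pos h25, ← Finset.mul_sum]
  rw [mul_add]

/-- Lower bound for the value of (P). -/
lemma le_valP (hρ' : ρ ≤ 1 / 1000) :
    ENNReal.ofReal ((h / √(h * A)) * (∑ i ∈ Finset.Icc 2 (n - 1), 1 / √(u n i) +
        (5110 / 10000) * (2 - ρ - 99 / 50))) ≤ (inst n hn h A ρ hh hA hρ).valP := by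
  have ha : 0 < h * A := by positivity
  have hs : 0 < √(h * A) := Real.sqrt_pos.2 ha
  set σ := h / √(h * A) with hσ
  have hσ0 : 0 < σ := by positivity
  refine le_iInf₂ ?_
  rintro w ⟨⟨hw1, hwn, hwb, hwl⟩, hwj⟩
  change ∀ i ∈ Finset.Icc 2 (n - 1), 0 ≤ w i ∧ w i ≤ (h * A) * u n i at hwb
  change ∀ i ∈ Finset.Icc 1 (n - 1), |w (i + 1) - w i| ≤ h * A at hwl
  change ∀ i ∈ Finset.Icc 2 (n - 1), ENNReal.ofReal |(inst n hn h A ρ hh hA hρ).Delta w i| ≤
    (inst n hn h A ρ hh hA hρ).cost (w i) at hwj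
  change _ ≤ ∑ i ∈ Finset.Icc 2 (n - 1), (inst n hn h A ρ hh hA hρ).cost (w i)
  by_cases hz : ∃ i ∈ Finset.Icc 2 (n - 1), w i = 0
  · obtain ⟨i, hi, hi0⟩ := hz
    have : ∑ i ∈ Finset.Icc 2 (n - 1), (inst n hn h A ρ hh hA hρ).cost (w i) = ⊤ := by
      rw [ENNReal.sum_eq_top]
      exact ⟨i, hi, by rw [hi0]; exact cost_zero hn hh hA hρ⟩
    rw [this]
    exact le_top
  · push Not at hz
    let v : ℕ → ℝ := fun j => w j / (h * A)
    have hwv : w = fun j => (h * A) * v j := by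
      funext j
      simp only [v]
      field_simp
    have hv0 : ∀ i ∈ Finset.Icc 2 (n - 1), 0 < v i := by
      intro i hi
      have h1 := (hwb i hi).1
      have h2 := hz i hi
      have h3 : 0 < w i := lt_of_le_of_ne h1 (Ne.symm h2)
      simp only [v]
      positivity
    have hvu : ∀ i ∈ Finset.Icc 2 (n - 1), v i ≤ u n i := by
      intro i hi
      have h1 := (hwb i hi).2
      simp only [v]
      rw [div_le_iff₀ ha]
      linarith
    have hvl : ∀ i ∈ Finset.Icc 1 (n - 1), |v (i + 1) - v i| ≤ 1 := by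
      intro i hi
      have h1 := hwl i hi
      simp only [v]
      rw [← sub_div, abs_div, abs_of_pos ha, div_le_iff₀ ha]
      linarith
    have h25 : (25 : ℕ) ∈ Finset.Icc 2 (n - 1) := by rw [Finset.mem_Icc]; omega
    have hvj : v 24 - (2 + ρ) * v 25 + v 26 ≤ (99 / 50) / √(v 25) := by
      have h1 := hwj 25 h25
      have h2 := hv0 25 h25
      rw [hwv] at h1
      simp only at h1
      rw [cost_scale hn hh hA hρ h2, Delta_scale, ← hσ] at h1
      have hsv : 0 < √(v 25) := Real.sqrt_pos.2 h2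
      rw [ENNReal.ofReal_le_ofReal_iff (by positivity), abs_mul, abs_of_pos hσ0] at h1
      have h3 := le_of_mul_le_mul_left h1 hσ0
      have h4 := le_trans (le_abs_self _) h3
      rw [div_le_div_iff₀ (by norm_num) hsv] at h4
      rw [le_div_iff₀ hsv]
      simpa using h4
    have hlow := lower n hn hρ hρ' v hv0 hvu hvl hvj
    have hcost : ∑ i ∈ Finset.Icc 2 (n - 1), (inst n hn h A ρ hh hA hρ).cost (w i) =
        ENNReal.ofReal (σ * ∑ i ∈ Finset.Icc 2 (n - 1), 1 / √(v i)) := by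
      rw [Finset.mul_sum, ENNReal.ofReal_sum_of_nonneg]
      · apply Finset.sum_congr rfl
        intro i hi
        rw [hwv]
        exact cost_scale hn hh hA hρ (hv0 i hi)
      · intro i hi
        positivity
    rw [hcost]
    apply ENNReal.ofReal_le_ofReal
    exact mul_le_mul_of_nonneg_left hlow hσ0.le

/-- The value of (P) is finite. -/
lemma valP_lt_top (hρ' : ρ ≤ 1 / 1000) : (inst n hn h A ρ hh hA hρ).valP < ⊤ := by
  have ha : 0 < h * A := by positivity
  have hs : 0 < √(h * A) := Real.sqrt_pos.2 ha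
  set σ := h / √(h * A) with hσ
  have hσ0 : 0 < σ := by positivity
  let v : ℕ → ℝ := fun j => if 2 ≤ j ∧ j ≤ n - 1 then 1 else 0
  have hv1 : ∀ j, 2 ≤ j → j ≤ n - 1 → v j = 1 := by
    intro j h1 h2
    simp only [v]
    rw [if_pos ⟨h1, h2⟩]
  have hv01 : ∀ j, 0 ≤ v j ∧ v j ≤ 1 := by
    intro j
    simp only [v]
    split <;> norm_num
  let w : ℕ → ℝ := fun j => (h * A) * v j
  have hmem : w ∈ (inst n hn h A ρ hh hA hρ).FeasP := by
    refine ⟨⟨?_, ?_, ?_, ?_⟩, ?_⟩
    · change (h * A) * v 1 = 0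
      simp [v]
    · change (h * A) * v n = 0
      have : ¬ (2 ≤ n ∧ n ≤ n - 1) := by omega
      simp only [v, if_neg this, mul_zero]
    · intro i hi
      change i ∈ Finset.Icc 2 (n - 1) at hi
      rw [Finset.mem_Icc] at hi
      have h1 := one_le_u n i hn hi.1 hi.2
      change 0 ≤ (h * A) * v i ∧ (h * A) * v i ≤ (h * A) * u n i
      rw [hv1 i hi.1 hi.2]
      constructor
      · positivity
      · exact mul_le_mul_of_nonneg_left h1 ha.le
    · intro i hi
      change |(h * A) * v (i + 1) - (h * A) * v i| ≤ h * A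
      rw [← mul_sub, abs_mul, abs_of_pos ha]
      have h1 := hv01 i
      have h2 := hv01 (i + 1)
      have h3 : |v (i + 1) - v i| ≤ 1 := by
        rw [abs_le]; constructor <;> linarith
      calc (h * A) * |v (i + 1) - v i| ≤ (h * A) * 1 :=
            mul_le_mul_of_nonneg_left h3 ha.le
        _ = h * A := mul_one _
    · intro i hi
      change i ∈ Finset.Icc 2 (n - 1) at hi
      rw [Finset.mem_Icc] at hi
      change ENNReal.ofReal |(inst n hn h A ρ hh hA hρ).Delta (fun j => (h * A) * v j) i| ≤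
        (inst n hn h A ρ hh hA hρ).cost ((h * A) * v i)
      have hvi := hv1 i hi.1 hi.2
      have hvi0 : 0 < v i := by rw [hvi]; norm_num
      rw [cost_scale hn hh hA hρ hvi0, Delta_scale, ← hσ, abs_mul, abs_of_pos hσ0]
      apply ENNReal.ofReal_le_ofReal
      apply mul_le_mul_of_nonneg_left _ hσ0.le
      rw [hvi, Real.sqrt_one, abs_div, abs_of_pos (show (0 : ℝ) < 99 / 50 by norm_num),
        div_le_div_iff₀ (by norm_num) (by norm_num)]
      have h1 := hv01 (i - 1)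
      have h2 := hv01 (i + 1)
      have h3 : 1 ≤ v (i - 1) + v (i + 1) := by
        rcases Nat.lt_or_ge 2 i with h | h
        · rw [hv1 (i - 1) (by omega) (by omega)]; linarith
        · rw [hv1 (i + 1) (by omega) (by omega)]; linarith
      rw [mul_one, one_mul, abs_le]
      constructor <;> linarith
  refine lt_of_le_of_lt (iInf₂_le w hmem) ?_
  change ∑ i ∈ Finset.Icc 2 (n - 1), (inst n hn h A ρ hh hA hρ).cost ((h * A) * v i) < ⊤
  rw [ENNReal.sum_lt_top]
  intro i hi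
  rw [Finset.mem_Icc] at hi
  have hvi0 : 0 < v i := by rw [hv1 i hi.1 hi.2]; norm_num
  rw [cost_scale hn hh hA hρ hvi0]
  exact ENNReal.ofReal_lt_top

end

/-- For every `n ≥ 49`, every `h, A > 0` and every `0 < ρ ≤ 1/1000` there is an instance with these
data for which the optimal value of (R) is strictly smaller than the finite optimal value of (P).
In particular (R) is not exact for that instance. -/
theorem result : ∀ n : ℕ, 49 ≤ n → ∀ h A ρ : ℝ, 0 < h → 0 < A → 0 < ρ → ρ ≤ 1 / 1000 →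
    ∃ I : Instance, I.n = n ∧ I.h = h ∧ I.A = A ∧ I.ρ = ρ ∧
      I.valR < I.valP ∧ I.valP < ⊤ ∧ ¬ I.Exact := by
  intro n hn h A ρ hh hA hρ hρ'
  have hlt : (inst n hn h A ρ hh hA hρ).valR < (inst n hn h A ρ hh hA hρ).valP := by
    refine lt_of_le_of_lt (valR_le hn hh hA hρ hρ') (lt_of_lt_of_le ?_ (le_valP hn hh hA hρ hρ'))
    have ha : 0 < h * A := by positivity
    have hs : 0 < √(h * A) := Real.sqrt_pos.2 ha
    have hσ0 : 0 < h / √(h * A) := by positivity
    have hS : 0 ≤ ∑ i ∈ Finset.Icc 2 (n - 1), 1 / √(u n i) :=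
      Finset.sum_nonneg fun i _ => by positivity
    have hD : 0 < 2 - ρ - 99 / 50 := by linarith
    rw [ENNReal.ofReal_lt_ofReal_iff (by positivity)]
    apply mul_lt_mul_of_pos_left _ hσ0
    have : (2 - ρ - 99 / 50) / (99 / 50) < (5110 / 10000) * (2 - ρ - 99 / 50) := by
      rw [div_lt_iff₀ (by norm_num)]
      nlinarith
    linarith
  refine ⟨inst n hn h A ρ hh hA hρ, rfl, rfl, rfl, rfl, hlt, valP_lt_top hn hh hA hρ hρ', ?_⟩
  intro hE
  rw [hE.1] at hlt
  exact lt_irrefl _ hlt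

end Pool.Agent.Results.MP_6d6828_an.NotExact
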